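import Pool.Agent.Run7.h885.BF.Lim
import Pool.Agent.Run7.h885.GF.Gen
import Pool.Agent.Run7.h885.FS.Curve

/-!
The limits of the exploration path (as a curve) and fixed sets of points of the free side.
-/

namespace Pool.Agent.Run7.h885.BF

open MeasureTheory TopologicalSpace Filter Topology Set Metric
open scoped ENNReal
open Pool.Agent.Run7.h885.GF
open Pool.Agent.Run7.h885.FS (Codim energy content measurableSet_dim II essSup_eq IsLim
  measurable_rgX hit_iff isClosed_hit)
open H984N (X)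

theorem e13 : (1 / 3 : ℝ≥0∞) = ENNReal.ofReal (1 / 3) := by
  rw [ENNReal.ofReal_div_of_pos (by norm_num)]
  norm_num

theorem isT_of_isLim (R : H984N.Rect) {μ : ProbabilityMeasure X} (hμ : IsLim R μ) :
    IsT (H443B.toE R) (μ.map H443B.rgX_cont.measurable.aemeasurable) := by
  obtain ⟨δ, hδ, hδ0, hlim⟩ := hμ
  exact ⟨δ, hδ, hδ0, H443B.limit_trace R hδ hδ0 hlim⟩

theorem codim_curve (R : H984N.Rect) {μ : ProbabilityMeasure X} (hμ : IsLim R μ) :
    Codim H443B.rgX (Gam R.B) (1 / 3) (μ : Measure X) := by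
  have hc := codim_side (H443B.toE R) (isT_of_isLim R hμ)
  rw [← e13, ProbabilityMeasure.toMeasure_map] at hc
  have hB : (H443B.toE R).B = R.B := rfl
  rw [hB] at hc
  constructor
  · intro S hS
    filter_upwards [ae_of_ae_map H443B.rgX_cont.measurable.aemeasurable (hc.up S hS)] with p hp
    exact hp
  · intro S hS hSD a ha
    apply hc.low S hS hSD
    have hm : MeasurableSet {K : NonemptyCompacts ℂ | dimH (S ∩ (K : Set ℂ)) ≤ a} := by
      have h1 := measurableSet_dim (ι := Unit) hS a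
      have h2 : Measurable fun K : NonemptyCompacts ℂ => (fun _ : Unit => K) := by
        rw [measurable_pi_iff]; exact fun _ => measurable_id
      have h3 := h2 h1
      have h4 : (fun K : NonemptyCompacts ℂ => (fun _ : Unit => K)) ⁻¹'
          {K : Unit → NonemptyCompacts ℂ | dimH (II S K) ≤ a} =
          {K : NonemptyCompacts ℂ | dimH (S ∩ (K : Set ℂ)) ≤ a} := by
        ext K
        simp only [II, mem_preimage, mem_ofPred_eq, iInter_const]
      rw [← h4]
      exact h3
    exact (ae_map_iff H443B.rgX_cont.measurable.aemeasurable hm).mpr ha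

/-- the capacity and content bounds -/
theorem cap_curve (R : H984N.Rect) {Q : Set ℂ} (hQ : IsCompact Q) (hQD : Q ⊆ Gam R.B) :
    ∃ c C : ℝ, 0 < c ∧ 0 < C ∧ ∀ μ : ProbabilityMeasure X, IsLim R μ → ∀ S ⊆ Q,
      (IsCompact S → ∀ ν : Measure ℂ, IsFiniteMeasure ν → ν Sᶜ = 0 →
        ENNReal.ofReal c * ν S ^ 2 / energy (1 / 3) ν ≤
          (μ : Measure X) {p | ∃ s, p.1 s ∈ S}) ∧
      (μ : Measure X) {p | ∃ s, p.1 s ∈ S} ≤ ENNReal.ofReal C * content (1 / 3) S := by
  obtain ⟨ρ, hρ, hρH, hQρ⟩ := exists_GQ R.hH hQ hQD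
  obtain ⟨C0, hC0, hu⟩ := u1
  obtain ⟨c, hc, h1⟩ := cap_low (by norm_num) (hl (H443B.toE R)) (MT_prob (H443B.toE R)) hQ hQD
  obtain ⟨C, hC, h2⟩ := content_upC (q := 1 / 3) (C0 := C0 * (2 / ρ) ^ ((1 : ℝ) / 3))
    (r0 := ρ / 16) (by norm_num) (by positivity) (by positivity)
  refine ⟨c, C, hc, hC, ?_⟩
  intro μ hμ S hSQ
  have hT := isT_of_isLim R hμ
  have hpre : H443B.rgX ⁻¹' {K : NonemptyCompacts ℂ | ((K : Set ℂ) ∩ S).Nonempty} =
      {p : X | ∃ s, p.1 s ∈ S} := by
    ext p
    exact hit_iff S p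
  constructor
  · intro hS ν hν hνS
    have h3 := h1 _ ⟨_, hT, rfl⟩ S hSQ hS ν hν hνS
    rw [ProbabilityMeasure.toMeasure_map, Measure.map_apply measurable_rgX
      (isClosed_hit hS.isClosed).measurableSet, hpre] at h3
    have e : ν univ = ν S := by
      have h4 := measure_add_measure_compl (μ := ν) hS.isClosed.measurableSet
      rw [hνS, add_zero] at h4
      exact h4.symm
    rw [e] at h3
    exact h3
  · have h3 := h2 (GQ R.B ρ) _ inferInstance (hu (H443B.toE R) _ hT ρ hρ hρH) S (hSQ.trans hQρ)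
    refine le_trans ?_ h3
    rw [ProbabilityMeasure.toMeasure_map, ← hpre]
    exact Measure.le_map_apply measurable_rgX.aemeasurable _

/-- one curve -/
theorem one_curve (R : H984N.Rect) {μ : ProbabilityMeasure X} (hμ : IsLim R μ) {S : Set ℂ}
    (hS : IsSigmaCompact S) (hSD : S ⊆ Gam R.B) :
    essSup (fun p : X => dimH (S ∩ range p.1)) (μ : Measure X) = dimH S - 1 / 3 ∧
    essSup (fun p : X => dimH {s : unitInterval | p.1 s ∈ S}) (μ : Measure X) =
      4 / 7 * (dimH S - 1 / 3) := by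
  have hc := codim_curve R hμ
  have h1 : essSup (fun p : X => dimH (S ∩ range p.1)) (μ : Measure X) = dimH S - 1 / 3 := by
    apply essSup_eq
    · filter_upwards [hc.up S hSD] with p hp
      exact hp.1
    · intro a ha
      rw [tsub_le_iff_right]
      exact hc.low S hS hSD a ha
  refine ⟨h1, ?_⟩
  rw [essSup_congr_ae (FS.times R hμ S), ENNReal.essSup_const_mul, h1]

/-- several curves -/
theorem many_curves (R : H984N.Rect) {k : ℕ} {μ : Fin k → ProbabilityMeasure X}
    (hμ : ∀ i, IsLim R (μ i)) {S : Set ℂ} (hS : IsSigmaCompact S) (hSD : S ⊆ Gam R.B) :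
    essSup (fun p : Fin k → X => dimH (S ∩ ⋂ i, range (p i).1))
      (Measure.pi fun i => (μ i : Measure X)) = dimH S - k / 3 ∧
    (dimH S < k / 3 → ∀ᵐ p ∂(Measure.pi fun i => (μ i : Measure X)),
      S ∩ ⋂ i, range (p i).1 = ∅) ∧
    (k / 3 < dimH S → 0 < (Measure.pi fun i => (μ i : Measure X))
      {p | (S ∩ ⋂ i, range (p i).1).Nonempty}) := by
  obtain ⟨h1, h2⟩ := FS.codim_pi measurable_rgX (μ := fun i => (μ i : Measure X))
    (fun i => inferInstance) (fun i => codim_curve R (hμ i)) hS hSD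
  have e : (k : ℝ≥0∞) * (1 / 3) = k / 3 := by rw [mul_one_div]
  have e2 : ∀ p : Fin k → X, II S (fun i => H443B.rgX (p i)) = S ∩ ⋂ i, range (p i).1 :=
    fun p => rfl
  simp_rw [e, e2] at h1 h2
  refine ⟨?_, ?_, ?_⟩
  · apply essSup_eq
    · filter_upwards [h1] with p hp
      exact hp.1
    · intro a ha
      rw [tsub_le_iff_right]
      exact h2 a ha
  · intro hlt
    filter_upwards [h1] with p hp
    exact hp.2 hlt
  · intro hlt
    rw [pos_iff_ne_zero]
    intro h0
    have h3 := h2 0 (by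
      have h4 : ∀ᵐ p ∂(Measure.pi fun i => (μ i : Measure X)),
          ¬ (S ∩ ⋂ i, range (p i).1).Nonempty := by
        rw [ae_iff]
        simpa only [not_not] using h0
      filter_upwards [h4] with p hp
      rw [not_nonempty_iff_eq_empty.mp hp, dimH_empty])
    rw [zero_add] at h3
    exact absurd hlt (not_lt.mpr h3)

theorem Gam_eq (B : ℝ) : Gam B = Complex.ofReal '' Ioo 0 B := by
  ext z
  constructor
  · rintro ⟨h1, h2, h3⟩
    exact ⟨z.re, ⟨h2, h3⟩, Complex.ext rfl h1.symm⟩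
  · rintro ⟨x, ⟨h2, h3⟩, rfl⟩
    exact ⟨by simp, by simpa using h2, by simpa using h3⟩

theorem isSigmaCompact_Gam (B : ℝ) : IsSigmaCompact (Gam B) := by
  rw [Gam_eq]
  refine IsSigmaCompact.image Complex.continuous_ofReal ?_
  obtain ⟨F, hF1, -, hF3, -⟩ := (isOpen_Ioo (a := (0 : ℝ)) (b := B)).exists_iUnion_isClosed
  rw [← hF3]
  exact isSigmaCompact_iUnion _ fun n =>
    isSigmaCompact_univ.of_isClosed_subset (hF1 n) (subset_univ _)

theorem dimH_Gam {B : ℝ} (hB : 0 < B) : dimH (Gam B) = 1 := by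
  have hi : Isometry (Complex.ofReal : ℝ → ℂ) := Complex.isometry_ofReal
  rw [Gam_eq, hi.dimH_image]
  have h1 : (interior (Ioo (0 : ℝ) B)).Nonempty := by
    rw [interior_Ioo]
    exact nonempty_Ioo.2 hB
  rw [Real.dimH_of_nonempty_interior h1, Module.finrank_self]
  norm_num

end Pool.Agent.Run7.h885.BF
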