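import Mathlib

/-!
The free side of the rectangle next to `b`.
-/

namespace Pool.Agent.Run7.h885.BF

/-- The open segment `{x : 0 < x < B}` of the real axis: the side of the rectangle
`(-A, B) × (0, H)` between the point `b = 0` and the corner `B`. -/
def Gam (B : ℝ) : Set ℂ := {z | z.im = 0 ∧ 0 < z.re ∧ z.re < B}

end Pool.Agent.Run7.h885.BF
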