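import Pool.Agent.H934R2.Expl.Final
import Pool.Agent.H389R2.CD.Wired
import Pool.Agent.H985R3.IL.IL2

/-!
Visits of boundary vertices of the free side next to `b`: lower bounds at all distances from the
ends of the side, and a two-point upper bound for half-boxes, on the lattice.
-/

set_option maxHeartbeats 1000000

namespace Pool.Agent.Run7.h885.BF

open H974 H973 H934E Finset Pool.Agent.H389R2.CD

/-- gluing to the wired left side -/
theorem glue_left (R : Rect) {δ : ℝ} {F : Finset Edg} {k n : ℤ} (hn : 1 ≤ n)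
    (hx0 : R.x0 δ ≤ 0) (hx : R.x0 δ ≤ k - 3 * n) (hy : n ≤ R.y1 δ)
    (h1 : Ar k (3 * n) F) (h2 : HC k n (3 * n) F) (h3 : LRc (R.x0 δ) k 0 n F) :
    W (R.wired δ) F (k, 0) := by
  obtain ⟨l, hl1, hl2, hz⟩ := hc_meet (by omega) (by omega) h2
  obtain ⟨y, hy1, hy2⟩ := h1
  obtain ⟨s, s', hs, hs', hr⟩ := h3
  have m1 := hz (k, 0) y (by unfold inR; simp only; omega) hy1 hy2
  obtain ⟨w, hw1, _, hw3⟩ := exitG (k := k) (R := 3 * n) (by omega)
    (G := (↑F : Set Edg) ∩ ↑(LRE (R.x0 δ) k 0 n))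
    (fun e he _ => RE_nonneg (LRE_subset_RE (Finset.mem_coe.mp he.2)))
    (u := (k, s')) (v := (R.x0 δ, s)) (by unfold inR; simp only; omega) hr.symm
    (by simp only; omega)
  have m2 := hz (k, s') w (by unfold inR; simp only; omega) hw1
    (hw3.mono (by rintro e ⟨⟨he1, _⟩, he2⟩; exact ⟨he1, he2⟩))
  have m3 := wired_left R (δ := δ) hx0 (y := s) (by omega) (by omega)
  have m4 : Reach (↑F : Set Edg) (R.x0 δ, s) (k, 0) :=
    (hr.mono Set.inter_subset_left).trans ((m2.mono Set.inter_subset_left).trans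
      (m1.mono Set.inter_subset_left).symm)
  exact (m3.mono Set.subset_union_right).trans (m4.mono Set.subset_union_left)

theorem edges_eq' (R : Rect) (δ : ℝ) : R.edges δ = ES (R.verts δ) := rfl

/-- A boundary vertex is visited with probability at least `c n ^ (-1/3)`. -/
theorem visit_ge (K : ℕ) : ∃ c : ℝ, 0 < c ∧ ∀ (R : Rect) (δ : ℝ) (k n : ℤ), 1 ≤ n →
    R.x0 δ < 0 → 3 * n ≤ k → k + 3 * n ≤ R.x1 δ → 3 * n < R.y1 δ → k - R.x0 δ ≤ K * n →
    c ≤ th n * Q (ES (R.verts δ)) (fun F => W (R.wired δ) F (k, 0)) := by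
  obtain ⟨c, C, hc, hC, h⟩ := pa_bounds
  obtain ⟨a, ha, hrsw⟩ := H985IL.IL2.rswK K
  have hkp := kp_pos
  refine ⟨c / 3 * (kp * a), by positivity, ?_⟩
  intro R δ k n hn hx0 h1 h2 h3 h4
  have ht := th_pos hn
  have hF := R.freeR (δ := δ) (k := k) (r := 3 * n) h1 h2 h3 hx0
  have hS := RE_sub hF.flat
  have hL : LRE (R.x0 δ) k 0 n ⊆ ES (R.verts δ) := by
    rw [← edges_eq', R.edges_eq]
    exact LRE_subset_RE.trans (RE_subset le_rfl (by omega) (by omega) (by omega))
  have e1 := pr_Ar (k := k) (n := 3 * n) (by omega) hS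
  have e2 := pr_HC (k := k) (r := n) (by omega) hS
  have e3 : a ≤ Q (ES (R.verts δ)) (LRc (R.x0 δ) k 0 n) := by
    unfold Q
    rw [pr_LRc (1 / 2) hL]
    exact hrsw _ _ (by omega) (by omega) (by rw [sub_zero]; exact h4)
  have i1 := hmul (HC_incr (ES (R.verts δ)) k n (3 * n)) (LRc_incr (ES (R.verts δ)) (R.x0 δ) k 0 n)
    ha.le e2 e3
  have c1 : IncrE (ES (R.verts δ)) (fun F => HC k n (3 * n) F ∧ LRc (R.x0 δ) k 0 n F) :=
    fun F G hFG _ hF => ⟨hF.1.mono hFG, hF.2.mono hFG⟩
  have i2 := hmul (Ar_incr (ES (R.verts δ)) k (3 * n)) c1 (by positivity) e1.ge i1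
  have i3 : Q (ES (R.verts δ)) (fun F => Ar k (3 * n) F ∧ HC k n (3 * n) F ∧
      LRc (R.x0 δ) k 0 n F) ≤ Q (ES (R.verts δ)) (fun F => W (R.wired δ) F (k, 0)) :=
    Q_mono (fun F _ hF => glue_left R hn hx0.le (by omega) (by omega) hF.1 hF.2.1 hF.2.2)
  have b1 := (h (3 * n) (by omega)).1
  change c ≤ th (3 * n) * pa (3 * n) at b1
  have t3 := th_mul (c := 3) (n := n) (by norm_num) (by omega)
  push_cast at t3
  have hp := pa_nonneg (3 * n)
  have i4 : c ≤ 3 * th n * pa (3 * n) := b1.trans (mul_le_mul_of_nonneg_right t3 hp)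
  calc c / 3 * (kp * a) ≤ (th n * pa (3 * n)) * (kp * a) := by
        apply mul_le_mul_of_nonneg_right _ (by positivity)
        linarith
    _ = th n * (pa (3 * n) * (kp * a)) := by ring
    _ ≤ _ := mul_le_mul_of_nonneg_left (i2.trans i3) ht.le

/-- Half-boxes are reached with probability at least `c (r / n) ^ (1 / 3)`. -/
theorem box_ge (K : ℕ) : ∃ c : ℝ, 0 < c ∧ ∀ (R : Rect) (δ : ℝ) (k n r : ℤ), 1 ≤ r → r ≤ n →
    R.x0 δ < 0 → 3 * n ≤ k → k + 3 * n ≤ R.x1 δ → 3 * n < R.y1 δ → k - R.x0 δ ≤ K * n →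
    c * (th r / th n) ≤ Q (ES (R.verts δ)) (WB (R.wired δ) k r) := by
  obtain ⟨c, C, hc, hC, h⟩ := pa_bounds
  obtain ⟨c', hc', h'⟩ := visit_ge K
  refine ⟨c' / C, by positivity, ?_⟩
  intro R δ k n r hr hrn hx0 g1 g2 g3 g4
  set T := R.verts δ with hT
  set A := R.wired δ with hA
  have ht := th_pos (hr.trans hrn)
  have htr := th_pos hr
  have hF : Free k r T A := R.freeR (δ := δ) (k := k) (r := r) (by omega) (by omega) (by omega) hx0
  have b1 := h' R δ k n (by omega) hx0 g1 g2 g3 g4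
  have b2 := (h r hr).2
  change th r * pa r ≤ C at b2
  have hS : RE (k - r) (k + r) 0 r ⊆ ES T := RE_sub hF.flat
  set S1 := RE (k - r) (k + r) 0 r with hS1
  set E2 : Finset Edg → Prop := fun G => ∃ w ∈ HK k r, Reach (↑G ∪ (A \ ↑(ES (HK k r)))) w (0, 0)
    with hE2
  have key : Q (ES T) (fun F => W A F (k, 0)) ≤
      Q (ES T) (fun F => Ar k r (F ∩ S1) ∧ E2 (F ∩ (ES T \ S1))) := by
    apply Q_mono
    intro F hF' hW
    refine ⟨(Ar_local (Finset.Subset.refl _)).mp (W_Ar hF hr (by omega) hF' hW), ?_⟩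
    obtain ⟨w, hw, hw2⟩ := last_exit (G := (↑F ∪ A : Set Edg)) (B := HK k r) (u := (k, 0))
      (v := (0, 0)) (by rw [mem_HK]; simp only; omega) (Reach.symm hW)
    refine ⟨w, hw, hw2.mono ?_⟩
    rintro e ⟨he1 | he1, he2⟩
    · left
      rw [Finset.mem_coe] at he1 he2 ⊢
      rw [Finset.mem_inter, Finset.mem_sdiff]
      refine ⟨he1, hF' he1, ?_⟩
      rw [ES_HK] at he2
      exact he2
    · exact Or.inr ⟨he1, he2⟩
  rw [show Q (ES T) (fun F => Ar k r (F ∩ S1) ∧ E2 (F ∩ (ES T \ S1))) =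
      Q S1 (Ar k r) * Q (ES T \ S1) E2 from
      Pr_indep' hS Finset.sdiff_subset Finset.disjoint_sdiff _ _] at key
  rw [pr_Ar hr (Finset.Subset.refl _)] at key
  have e3 : Q (ES T \ S1) E2 ≤ Q (ES T) (WB A k r) := by
    have := Pr_restrict (S := ES T) (S' := ES T \ S1) Finset.sdiff_subset E2
    unfold Q
    rw [← this]
    apply Pr_mono okhalf
    rintro F _ ⟨w, hw, hw2⟩
    rw [mem_HK] at hw
    refine ⟨w, hw, Reach.symm (hw2.mono ?_)⟩
    rintro e (he | he)
    · left
      rw [Finset.mem_coe] at he ⊢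
      exact (Finset.mem_inter.mp he).1
    · exact Or.inr he.1
  have hp := pa_nonneg r
  have k1 : c' ≤ th n * (pa r * Q (ES T) (WB A k r)) :=
    b1.trans (mul_le_mul_of_nonneg_left (key.trans (mul_le_mul_of_nonneg_left e3 hp)) ht.le)
  have hQ := Q_nonneg (ES T) (WB A k r)
  have k2 : c' * th r ≤ th n * (C * Q (ES T) (WB A k r)) := by
    calc c' * th r ≤ (th n * (pa r * Q (ES T) (WB A k r))) * th r :=
          mul_le_mul_of_nonneg_right k1 htr.le
      _ = th n * ((th r * pa r) * Q (ES T) (WB A k r)) := by ring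
      _ ≤ _ := mul_le_mul_of_nonneg_left (mul_le_mul_of_nonneg_right b2 hQ) ht.le
  rw [div_mul_div_comm, div_le_iff₀ (by positivity)]
  linarith

/-- Boundary intervals are visited with probability at least `c (r / n) ^ (1 / 3)`. -/
theorem interval_ge (K : ℕ) : ∃ c : ℝ, 0 < c ∧ ∀ (R : Rect) (δ : ℝ) (k n r : ℤ), 1 ≤ r →
    r ≤ n → R.x0 δ < 0 → 3 * n ≤ k → k + 3 * n ≤ R.x1 δ → 3 * n < R.y1 δ →
    k - R.x0 δ ≤ K * n →
    c * (th r / th n) ≤ Q (R.edges δ) (fun F => ∃ l : ℤ, k - 3 * r ≤ l ∧ l ≤ k - r ∧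
      W (R.wired δ) F (l, 0)) := by
  obtain ⟨c, hc, h⟩ := box_ge K
  have hkp := kp_pos
  refine ⟨c * kp, by positivity, ?_⟩
  intro R δ k n r hr hrn hx0 g1 g2 g3 g4
  rw [edges_eq']
  set T := R.verts δ with hT
  set A := R.wired δ with hA
  have h1 := h R δ k n r hr hrn hx0 g1 g2 g3 g4
  have hfree : Free k (3 * r) T A :=
    R.freeR (δ := δ) (k := k) (r := 3 * r) (by omega) (by omega) (by omega) hx0
  have h2 := pr_HC (k := k) (r := r) (by omega) (RE_sub hfree.flat)
  have i1 : IncrE (ES T) (WB A k r) := by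
    rintro F G hFG _ ⟨u, hu, hW⟩
    exact ⟨u, hu, hW.mono hFG⟩
  have i2 := hmul i1 (HC_incr (ES T) k r (3 * r)) hkp.le h1 h2
  have e1 : c * (th r / th n) * kp = c * kp * (th r / th n) := by ring
  rw [e1] at i2
  refine i2.trans ?_
  apply Q_mono
  rintro F hF ⟨⟨u, hu, hW⟩, hH⟩
  obtain ⟨l, hl1, hl2, hz⟩ := hc_meet (by omega) (by omega) hH
  refine ⟨l, hl1, hl2, ?_⟩
  have hA : ∀ e ∈ (↑F ∪ A : Set Edg), e ∈ RE (k - 3 * r) (k + 3 * r) (-(3 * r)) (3 * r) →
      e ∈ F ∧ 0 ≤ e.2.1 := by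
    rintro e he hE
    have hends := mem_RE_ends hE
    unfold inR at hends
    have hE2 : e ∈ ES (BX (k, 0) (3 * r)) := by
      rw [mem_ES, mem_BX, mem_BX]; simp only; omega
    rcases he with he | he
    · refine ⟨Finset.mem_coe.mp he, ?_⟩
      have := (mem_ES.mp (hF (Finset.mem_coe.mp he))).1
      exact (hfree.flat _ (mem_ES.mp hE2).1).mp this
    · exact absurd hE2 (hfree.free e he)
  obtain ⟨w, hw1, _, hw2⟩ := exitG (k := k) (R := 3 * r) (by omega) (G := (↑F ∪ A : Set Edg))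
    (fun e he hE => (hA e he hE).2) (u := u) (v := (0, 0))
    (by unfold inR at hu ⊢; omega) (Reach.symm hW) (by simp only; omega)
  have hw3 : Reach (↑F ∩ ↑(RE (k - 3 * r) (k + 3 * r) 0 (3 * r))) u w := by
    refine hw2.mono ?_
    rintro e ⟨he1, he2⟩
    refine ⟨?_, he2⟩
    have he3 : e ∈ RE (k - 3 * r) (k + 3 * r) (-(3 * r)) (3 * r) := by
      rw [Finset.mem_coe] at he2
      exact RE_subset le_rfl le_rfl (by omega) le_rfl he2
    exact Finset.mem_coe.mpr (hA e he1 he3).1
  have hul := hz u w hu hw1 hw3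
  exact Reach.trans hW (hul.mono (Set.inter_subset_left.trans Set.subset_union_left))

theorem BAr_local {k r n : ℤ} {F S : Finset Edg} (hS : RE (k - n) (k + n) 0 n ⊆ S) :
    BAr k r n F ↔ BAr k r n (F ∩ S) := by
  unfold BAr
  rw [coe_inter_eq hS]

theorem BAr_anti {k r n N : ℤ} {F : Finset Edg} (hr : 1 ≤ r) (hrn : r ≤ n) (hnN : n ≤ N)
    (h : BAr k r N F) : BAr k r n F := by
  obtain ⟨u, v, h1, h2, h3⟩ := h
  obtain ⟨w, h4, _, h5⟩ := exitG (k := k) (R := n) (by omega)
    (G := (↑F : Set Edg) ∩ ↑(RE (k - N) (k + N) 0 N))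
    (fun e he _ => RE_nonneg (Finset.mem_coe.mp he.2))
    (u := u) (by unfold inR at h1 ⊢; omega) h3 (by omega)
  exact ⟨u, w, h1, h4, h5.mono (by rintro e ⟨⟨he1, _⟩, he2⟩; exact ⟨he1, he2⟩)⟩

/-- Arms from two half-boxes of radius `r` around `(k, 0)` and `(k + d, 0)` to distance `N`. -/
theorem two_box : ∃ C : ℝ, 0 < C ∧ ∀ k d r N : ℤ, 1 ≤ r → r ≤ N → 1 ≤ d → d ≤ N →
    ∀ S : Finset Edg, RE (k - N) (k + N) 0 N ⊆ S → RE (k + d - N) (k + d + N) 0 N ⊆ S →
    Q S (fun F => BAr k r N F ∧ BAr (k + d) r N F) ≤ C * (th r * th r / (th d * th N)) := by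
  obtain ⟨C, hC, hB⟩ := BAr_le
  refine ⟨6 * C + 16 * C ^ 2 * (2 * C + 3), by positivity, ?_⟩
  intro k d r N hr hrN hd hdN S hS1 hS2
  have hN1 : 1 ≤ N := hd.trans hdN
  have htd := th_pos hd
  have htN := th_pos hN1
  have htr := th_pos hr
  by_cases hd3 : d ≤ 2 * r + 2
  · have i1 : Q S (fun F => BAr k r N F ∧ BAr (k + d) r N F) ≤ C * (th r / th N) :=
      (Q_mono (fun F _ hF => hF.1)).trans (hB k r N hr hrN S hS1)
    have t2 : th d ≤ 6 * th r := by
      have a1 : th d ≤ th (6 * r) := th_mono (by omega) (by omega)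
      have a2 := th_mul (c := 6) (n := r) (by norm_num) (by omega)
      push_cast at a2
      linarith
    refine i1.trans ?_
    have e1 : th r / th N ≤ 6 * (th r * th r / (th d * th N)) := by
      rw [← mul_div_assoc, div_le_div_iff₀ htN (by positivity)]
      have : th r * (th d * th N) ≤ th r * ((6 * th r) * th N) := by gcongr
      nlinarith
    calc C * (th r / th N) ≤ C * (6 * (th r * th r / (th d * th N))) := by gcongr
      _ = (6 * C) * (th r * th r / (th d * th N)) := by ring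
      _ ≤ _ := by
        apply mul_le_mul_of_nonneg_right _ (by positivity)
        have : 0 < 16 * C ^ 2 * (2 * C + 3) := by positivity
        linarith
  · push Not at hd3
    set q : ℤ := (d - 1) / 2 with hq
    have hrq : r ≤ q := by omega
    have hq1 : 1 ≤ q := by omega
    have hqd : 2 * q ≤ d - 1 := by omega
    have hdq : d ≤ 4 * q := by omega
    have htq := th_pos hq1
    have tq : th d ≤ 4 * th q := by
      have a1 : th d ≤ th (4 * q) := th_mono (by omega) hdq
      have a2 := th_mul (c := 4) (n := q) (by norm_num) (by omega)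
      push_cast at a2
      linarith
    have hpq4 : C * (th r / th q) ≤ 4 * C * (th r / th d) := by
      have : th r / th q ≤ 4 * (th r / th d) := by
        rw [← mul_div_assoc, div_le_div_iff₀ htq htd]
        nlinarith
      calc C * (th r / th q) ≤ C * (4 * (th r / th d)) := by gcongr
        _ = _ := by ring
    have key : ∀ x y X : ℝ, 0 ≤ x → 0 ≤ y → x ≤ 4 * C * (th r / th d) →
        y ≤ 4 * C * (th r / th d) → 0 ≤ X → X ≤ (2 * C + 3) * (th d / th N) →
        x * (y * X) ≤ (6 * C + 16 * C ^ 2 * (2 * C + 3)) * (th r * th r / (th d * th N)) := by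
      intro x y X hx hy hx2 hy2 hX hX2
      have a1 : x * (y * X) ≤ (4 * C * (th r / th d)) * ((4 * C * (th r / th d)) *
          ((2 * C + 3) * (th d / th N))) := by
        apply mul_le_mul hx2 _ (mul_nonneg hy hX) (by positivity)
        exact mul_le_mul hy2 hX2 hX (by positivity)
      have a2 : (4 * C * (th r / th d)) * ((4 * C * (th r / th d)) *
          ((2 * C + 3) * (th d / th N))) =
          (16 * C ^ 2 * (2 * C + 3)) * (th r * th r / (th d * th N)) := by
        field_simp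
        ring
      rw [a2] at a1
      refine a1.trans ?_
      apply mul_le_mul_of_nonneg_right _ (by positivity)
      linarith
    have s1 : RE (k - q) (k + q) 0 q ⊆ S := (RE_sub_RE (by omega) (by omega) (by omega)).trans hS1
    have s2 : RE (k + d - q) (k + d + q) 0 q ⊆ S :=
      (RE_sub_RE (by omega) (by omega) (by omega)).trans hS2
    have hdis : Disjoint (RE (k - q) (k + q) 0 q) (RE (k + d - q) (k + d + q) 0 q) :=
      HK_disj (by omega)
    have p1 := (hB k r q hr hrq _ (Finset.Subset.refl _)).trans hpq4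
    have p2 := (hB (k + d) r q hr hrq _ (Finset.Subset.refl _)).trans hpq4
    by_cases h2 : 2 * d ≤ N
    · set S3 : Finset Edg := S \ RE (k - 2 * d) (k + 2 * d) 0 (2 * d) with hS3
      have d13 : Disjoint (RE (k - q) (k + q) 0 q) S3 := by
        apply Finset.disjoint_of_subset_left _ Finset.disjoint_sdiff
        exact RE_sub_RE (by omega) (by omega) (by omega)
      have d23 : Disjoint (RE (k + d - q) (k + d + q) 0 q) S3 := by
        apply Finset.disjoint_of_subset_left _ Finset.disjoint_sdiff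
        exact RE_sub_RE (by omega) (by omega) (by omega)
      have i1 : Q S (fun F => BAr k r N F ∧ BAr (k + d) r N F) ≤
          Q S (fun F => BAr k r q (F ∩ RE (k - q) (k + q) 0 q) ∧
            BAr (k + d) r q (F ∩ RE (k + d - q) (k + d + q) 0 q) ∧
            BAr k (2 * d) N (F ∩ S3)) := by
        apply Q_mono
        rintro F hF ⟨f1, f2⟩
        refine ⟨(BAr_local (Finset.Subset.refl _)).mp (BAr_anti hr hrq (by omega) f1),
          (BAr_local (Finset.Subset.refl _)).mp (BAr_anti hr hrq (by omega) f2), ?_⟩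
        obtain ⟨u, y, hu, hy, hy2⟩ := f1
        obtain ⟨w, hw, hw2⟩ := last_exit (B := HK k (2 * d)) (u := u)
          (by rw [mem_HK]; unfold inR at hu; omega) hy2
        refine ⟨w, y, ?_, hy, hw2.mono ?_⟩
        · rw [mem_HK] at hw
          unfold inR
          omega
        · rintro e ⟨⟨he1, he2⟩, he3⟩
          rw [Finset.mem_coe] at he1 he3
          rw [ES_HK] at he3
          refine ⟨?_, he2⟩
          rw [Finset.mem_coe, Finset.mem_inter, hS3, Finset.mem_sdiff]
          exact ⟨he1, hF he1, he3⟩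
      rw [Pr_indep3 s1 s2 Finset.sdiff_subset hdis d13 d23 (BAr k r q) (BAr (k + d) r q)
        (BAr k (2 * d) N)] at i1
      refine i1.trans (key _ _ _ (Q_nonneg _ _) (Q_nonneg _ _) p1 p2 (Q_nonneg _ _) ?_)
      have i2 : Q S3 (BAr k (2 * d) N) ≤ Q S (BAr k (2 * d) N) :=
        Pr_mono_set okhalf Finset.sdiff_subset (BAr_incr _ _ _ _)
      have i3 := hB k (2 * d) N (by omega) h2 S hS1
      have t2 := th_mul (c := 2) (n := d) (by norm_num) (by omega)
      push_cast at t2
      calc Q S3 (BAr k (2 * d) N) ≤ C * (th (2 * d) / th N) := i2.trans i3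
        _ ≤ C * (2 * th d / th N) := by gcongr
        _ = (2 * C) * (th d / th N) := by ring
        _ ≤ (2 * C + 3) * (th d / th N) := by
            apply mul_le_mul_of_nonneg_right _ (by positivity)
            linarith
    · have i1 : Q S (fun F => BAr k r N F ∧ BAr (k + d) r N F) ≤
          Q S (fun F => BAr k r q (F ∩ RE (k - q) (k + q) 0 q) ∧
            BAr (k + d) r q (F ∩ RE (k + d - q) (k + d + q) 0 q)) := by
        apply Q_mono
        rintro F hF ⟨f1, f2⟩
        exact ⟨(BAr_local (Finset.Subset.refl _)).mp (BAr_anti hr hrq (by omega) f1),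
          (BAr_local (Finset.Subset.refl _)).mp (BAr_anti hr hrq (by omega) f2)⟩
      rw [show Q S (fun F => BAr k r q (F ∩ RE (k - q) (k + q) 0 q) ∧
            BAr (k + d) r q (F ∩ RE (k + d - q) (k + d + q) 0 q)) =
          Q (RE (k - q) (k + q) 0 q) (BAr k r q) *
            Q (RE (k + d - q) (k + d + q) 0 q) (BAr (k + d) r q)
          from Pr_indep' s1 s2 hdis _ _] at i1
      have i2 := key _ _ 1 (Q_nonneg _ _) (Q_nonneg _ _) p1 p2 (by norm_num) (by
        have a1 : th N ≤ th (2 * d) := th_mono (by omega) (by omega)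
        have t2 := th_mul (c := 2) (n := d) (by norm_num) (by omega)
        push_cast at t2
        rw [← mul_div_assoc, le_div_iff₀ htN]
        nlinarith)
      rw [mul_one] at i2
      exact i1.trans i2

end Pool.Agent.Run7.h885.BF
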