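import Pool.Agent.Run7.h885.BF.Lat

/-!
Two boundary points near the exploration path, on the lattice.
-/

set_option maxHeartbeats 1000000

namespace Pool.Agent.Run7.h885.BF

open H974 H973 H934E Finset Pool.Agent.H389R2.CD

theorem far_box : ∃ C : ℝ, 0 < C ∧ ∀ k d r N : ℤ, 1 ≤ r → r ≤ N → N ≤ d →
    ∀ S : Finset Edg, RE (k - N) (k + N) 0 N ⊆ S → RE (k + d - N) (k + d + N) 0 N ⊆ S →
    Q S (fun F => BAr k r N F ∧ BAr (k + d) r N F) ≤ C * (th r * th r / (th N * th N)) := by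
  obtain ⟨C, hC, hB⟩ := BAr_le
  refine ⟨16 * C ^ 2 + 16, by positivity, ?_⟩
  intro k d r N hr hrN hNd S hS1 hS2
  have hN1 : 1 ≤ N := hr.trans hrN
  have htN := th_pos hN1
  have htr := th_pos hr
  by_cases hd3 : N ≤ 2 * r + 2
  · have t2 : th N ≤ 4 * th r := by
      have a1 : th N ≤ th (4 * r) := th_mono (by omega) (by omega)
      have a2 := th_mul (c := 4) (n := r) (by norm_num) (by omega)
      push_cast at a2
      linarith
    refine (Q_le_one _ _).trans ?_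
    have e1 : 1 ≤ 16 * (th r * th r / (th N * th N)) := by
      rw [← mul_div_assoc, le_div_iff₀ (by positivity)]
      nlinarith
    refine e1.trans ?_
    apply mul_le_mul_of_nonneg_right _ (by positivity)
    have : 0 < 16 * C ^ 2 := by positivity
    linarith
  · push Not at hd3
    set q : ℤ := (N - 1) / 2 with hq
    have hrq : r ≤ q := by omega
    have hq1 : 1 ≤ q := by omega
    have hqd : 2 * q ≤ d - 1 := by omega
    have hqN : q ≤ N := by omega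
    have hdq : N ≤ 4 * q := by omega
    have htq := th_pos hq1
    have tq : th N ≤ 4 * th q := by
      have a1 : th N ≤ th (4 * q) := th_mono (by omega) hdq
      have a2 := th_mul (c := 4) (n := q) (by norm_num) (by omega)
      push_cast at a2
      linarith
    have hpq4 : C * (th r / th q) ≤ 4 * C * (th r / th N) := by
      have : th r / th q ≤ 4 * (th r / th N) := by
        rw [← mul_div_assoc, div_le_div_iff₀ htq htN]
        nlinarith
      calc C * (th r / th q) ≤ C * (4 * (th r / th N)) := by gcongr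
        _ = _ := by ring
    have s1 : RE (k - q) (k + q) 0 q ⊆ S := (RE_sub_RE (by omega) (by omega) (by omega)).trans hS1
    have s2 : RE (k + d - q) (k + d + q) 0 q ⊆ S :=
      (RE_sub_RE (by omega) (by omega) (by omega)).trans hS2
    have hdis : Disjoint (RE (k - q) (k + q) 0 q) (RE (k + d - q) (k + d + q) 0 q) :=
      HK_disj (by omega)
    have p1 := (hB k r q hr hrq _ (Finset.Subset.refl _)).trans hpq4
    have p2 := (hB (k + d) r q hr hrq _ (Finset.Subset.refl _)).trans hpq4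
    have i1 : Q S (fun F => BAr k r N F ∧ BAr (k + d) r N F) ≤
        Q S (fun F => BAr k r q (F ∩ RE (k - q) (k + q) 0 q) ∧
          BAr (k + d) r q (F ∩ RE (k + d - q) (k + d + q) 0 q)) := by
      apply Q_mono
      rintro F hF ⟨f1, f2⟩
      exact ⟨(BAr_local (Finset.Subset.refl _)).mp (BAr_anti hr hrq (by omega) f1),
        (BAr_local (Finset.Subset.refl _)).mp (BAr_anti hr hrq (by omega) f2)⟩
    rw [show Q S (fun F => BAr k r q (F ∩ RE (k - q) (k + q) 0 q) ∧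
          BAr (k + d) r q (F ∩ RE (k + d - q) (k + d + q) 0 q)) =
        Q (RE (k - q) (k + q) 0 q) (BAr k r q) *
          Q (RE (k + d - q) (k + d + q) 0 q) (BAr (k + d) r q)
        from Pr_indep' s1 s2 hdis _ _] at i1
    refine i1.trans ?_
    calc Q (RE (k - q) (k + q) 0 q) (BAr k r q) *
          Q (RE (k + d - q) (k + d + q) 0 q) (BAr (k + d) r q)
        ≤ (4 * C * (th r / th N)) * (4 * C * (th r / th N)) :=
          mul_le_mul p1 p2 (Q_nonneg _ _) (by positivity)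
      _ = 16 * C ^ 2 * (th r * th r / (th N * th N)) := by
          field_simp
          ring
      _ ≤ _ := by
          apply mul_le_mul_of_nonneg_right _ (by positivity)
          linarith

theorem two_boxN : ∃ C : ℝ, 0 < C ∧ ∀ k d r N : ℤ, 1 ≤ r → r ≤ N → 1 ≤ d →
    ∀ S : Finset Edg, RE (k - N) (k + N) 0 N ⊆ S → RE (k + d - N) (k + d + N) 0 N ⊆ S →
    Q S (fun F => BAr k r N F ∧ BAr (k + d) r N F) ≤
      C * (th r * th r / (th (min d N) * th N)) := by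
  obtain ⟨C1, hC1, h1⟩ := two_box
  obtain ⟨C2, hC2, h2⟩ := far_box
  refine ⟨C1 + C2, by positivity, ?_⟩
  intro k d r N hr hrN hd S hS1 hS2
  have htN := th_pos (hr.trans hrN)
  have htr := th_pos hr
  rcases le_total d N with h | h
  · rw [min_eq_left h]
    have htd := th_pos hd
    refine (h1 k d r N hr hrN hd h S hS1 hS2).trans ?_
    apply mul_le_mul_of_nonneg_right _ (by positivity)
    linarith
  · rw [min_eq_right h]
    refine (h2 k d r N hr hrN h S hS1 hS2).trans ?_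
    apply mul_le_mul_of_nonneg_right _ (by positivity)
    linarith

/-- the path close to a boundary point -/
theorem path_WB (R : Rect) {x ε δ : ℝ} (hδ : 0 < δ) (h16 : 16 * δ ≤ ε) (hy : 0 ≤ R.y1 δ)
    {F : Finset Edg} (hF : F ⊆ R.edges δ)
    (h : (R.path δ F ∩ Rect.UU x ε).Nonempty) :
    WB (R.wired δ) ⌊x / δ⌋ ⌈3 * ε / δ⌉ F := by
  obtain ⟨z, hz1, hz2, hz3⟩ := h
  have k1 : (⌊x / δ⌋ : ℝ) ≤ x / δ := Int.floor_le _
  have k2 : x / δ < ⌊x / δ⌋ + 1 := Int.lt_floor_add_one _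
  have r1 : 3 * ε / δ ≤ (⌈3 * ε / δ⌉ : ℝ) := Int.le_ceil _
  have q1 : 16 ≤ ε / δ := by rw [le_div_iff₀ hδ]; exact h16
  have q4 : 3 * ε / δ = 3 * (ε / δ) := by ring
  rw [q4] at r1
  have hε : ε / δ * δ = ε := by field_simp
  obtain ⟨v, hv, hv1, hv2⟩ := R.path_near hδ hz1
  have hv0 := R.clu_nonneg hy hF hv
  refine ⟨v, ?_, hv⟩
  have a1 : |(v.1 : ℝ) - x / δ| < ε / δ + 1 := by
    have : |δ * (v.1 : ℝ) - x| < ε + δ := by
      calc |δ * (v.1 : ℝ) - x| = |(z.re - x) - (z.re - δ * v.1)| := by congr 1; ring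
        _ ≤ |z.re - x| + |z.re - δ * v.1| := abs_sub _ _
        _ < ε + δ := by linarith
    have e1 : (v.1 : ℝ) - x / δ = (δ * (v.1 : ℝ) - x) / δ := by field_simp
    rw [e1, abs_div, abs_of_pos hδ, div_lt_iff₀ hδ]
    have : (ε / δ + 1) * δ = ε + δ := by field_simp
    linarith
  have a2 : ((v.2 : ℝ) + 1) < ε / δ + 1 := by
    have : δ * ((v.2 : ℝ) + 1) < ε + δ := by
      have b1 := (abs_lt.mp hz3).2
      have b2 := (abs_le.mp hv2).1
      linarith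
    have e1 : (v.2 : ℝ) + 1 = (δ * ((v.2 : ℝ) + 1)) / δ := by field_simp
    rw [e1, div_lt_iff₀ hδ]
    have : (ε / δ + 1) * δ = ε + δ := by field_simp
    linarith
  rw [abs_lt] at a1
  rw [q4]
  have b1 : ((⌊x / δ⌋ - ⌈3 * (ε / δ)⌉ : ℤ) : ℝ) ≤ v.1 := by push_cast; linarith
  have b2 : (v.1 : ℝ) ≤ ((⌊x / δ⌋ + ⌈3 * (ε / δ)⌉ : ℤ) : ℝ) := by push_cast; linarith
  have b3 : (v.2 : ℝ) ≤ (⌈3 * (ε / δ)⌉ : ℝ) := by linarith
  exact ⟨⟨by exact_mod_cast b1, by exact_mod_cast b2⟩, hv0, by exact_mod_cast b3⟩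

/-- the discrete geometry near the free side -/
theorem side_geo (R : Rect) {x ρ δ : ℝ} (hδ : 0 < δ) (h16 : 16 * δ ≤ ρ) (hA : δ < R.A)
    (h1 : ρ ≤ x) (h2 : ρ ≤ R.B - x) (h3 : ρ ≤ R.H) :
    R.x0 δ < 0 ∧ 0 ≤ R.y1 δ ∧ ⌊ρ / (2 * δ)⌋ ≤ ⌊x / δ⌋ ∧
      ⌊x / δ⌋ + ⌊ρ / (2 * δ)⌋ ≤ R.x1 δ ∧ ⌊ρ / (2 * δ)⌋ < R.y1 δ := by
  have k1 : (⌊x / δ⌋ : ℝ) ≤ x / δ := Int.floor_le _
  have k2 : x / δ < ⌊x / δ⌋ + 1 := Int.lt_floor_add_one _
  have S1 : (⌊ρ / (2 * δ)⌋ : ℝ) ≤ ρ / (2 * δ) := Int.floor_le _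
  have q2 : 16 ≤ ρ / δ := by rw [le_div_iff₀ hδ]; exact h16
  have q3 : ρ / (2 * δ) = (ρ / δ) / 2 := by field_simp
  have q5 : ρ / δ ≤ x / δ := div_le_div_of_nonneg_right h1 hδ.le
  have q6 : ρ / δ ≤ R.B / δ - x / δ := by
    rw [← sub_div]; exact div_le_div_of_nonneg_right h2 hδ.le
  have q7 : ρ / δ ≤ R.H / δ := div_le_div_of_nonneg_right h3 hδ.le
  rw [q3] at S1 ⊢
  have B1 : R.B / δ ≤ (⌈R.B / δ⌉ : ℝ) := Int.le_ceil _
  have H1 : R.H / δ ≤ (⌈R.H / δ⌉ : ℝ) := Int.le_ceil _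
  have hS : (⌊ρ / δ / 2⌋ : ℤ) < R.y1 δ := by
    unfold Rect.y1
    have : ((⌊ρ / δ / 2⌋ : ℤ) : ℝ) < ((⌈R.H / δ⌉ - 2 : ℤ) : ℝ) := by push_cast; linarith
    exact_mod_cast this
  have hS0 : (0 : ℤ) ≤ ⌊ρ / δ / 2⌋ := Int.floor_nonneg.mpr (by linarith)
  refine ⟨?_, by omega, ?_, ?_, hS⟩
  · unfold Rect.x0
    rw [Int.floor_neg]
    have : 1 < ⌈R.A / δ⌉ := by
      rw [Int.lt_ceil]
      push_cast
      rw [lt_div_iff₀ hδ]
      linarith
    omega
  · have : ((⌊ρ / δ / 2⌋ : ℤ) : ℝ) ≤ ((⌊x / δ⌋ : ℤ) : ℝ) := by linarith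
    exact_mod_cast this
  · unfold Rect.x1
    have : ((⌊x / δ⌋ + ⌊ρ / δ / 2⌋ : ℤ) : ℝ) ≤ ((⌈R.B / δ⌉ - 1 : ℤ) : ℝ) := by
      push_cast; linarith
    exact_mod_cast this

/-- two boundary points close to the path -/
theorem two_lat : ∃ C : ℝ, 0 < C ∧ ∀ (R : Rect) (x y ρ ε δ : ℝ), 0 < ρ → x < y → ρ ≤ x →
    ρ ≤ R.B - y → ρ ≤ R.H → 0 < ε → 8 * ε ≤ ρ → 0 < δ → 16 * δ ≤ ε → δ < R.A →
    4 * δ ≤ y - x →
    Q (R.edges δ) (fun F => (R.path δ F ∩ Rect.UU x ε).Nonempty ∧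
      (R.path δ F ∩ Rect.UU y ε).Nonempty) ≤
      C * (ε ^ 2 / (min (y - x) ρ * ρ)) ^ ((1:ℝ)/3) := by
  obtain ⟨C, hC, h⟩ := two_boxN
  refine ⟨C * (256 : ℝ) ^ ((1:ℝ)/3), by positivity, ?_⟩
  intro R x y ρ ε δ hρ hxy hx hy hH hε h8 hδ h16 hA h4
  obtain ⟨g1, g2, g3, g4, g5⟩ := side_geo R hδ (by linarith) hA hx (by linarith) hH
  obtain ⟨-, -, l3, l4, l5⟩ := side_geo R hδ (by linarith) hA (by linarith) hy hH (x := y)
  set k : ℤ := ⌊x / δ⌋ with hk
  set k' : ℤ := ⌊y / δ⌋ with hk'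
  set r : ℤ := ⌈3 * ε / δ⌉ with hr
  set N : ℤ := ⌊ρ / (2 * δ)⌋ with hN
  have k1 : (k : ℝ) ≤ x / δ := Int.floor_le _
  have k2 : x / δ < k + 1 := Int.lt_floor_add_one _
  have k1' : (k' : ℝ) ≤ y / δ := Int.floor_le _
  have k2' : y / δ < k' + 1 := Int.lt_floor_add_one _
  have r1 : 3 * ε / δ ≤ r := Int.le_ceil _
  have r2 : (r : ℝ) < 3 * ε / δ + 1 := Int.ceil_lt_add_one _
  have S1 : (N : ℝ) ≤ ρ / (2 * δ) := Int.floor_le _
  have S2 : ρ / (2 * δ) < N + 1 := Int.lt_floor_add_one _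
  have q1 : 16 ≤ ε / δ := by rw [le_div_iff₀ hδ]; exact h16
  have q2 : 8 * (ε / δ) ≤ ρ / δ := by
    rw [← mul_div_assoc]; exact div_le_div_of_nonneg_right h8 hδ.le
  have q3 : ρ / (2 * δ) = (ρ / δ) / 2 := by field_simp
  have q4 : 3 * ε / δ = 3 * (ε / δ) := by ring
  rw [q3] at S1 S2
  rw [q4] at r1 r2
  have q9 : 4 ≤ (y - x) / δ := by rw [le_div_iff₀ hδ]; exact h4
  have q10 : (y - x) / δ = y / δ - x / δ := sub_div _ _ _
  have hr1 : 1 ≤ r := by
    have : (0:ℝ) < r := by linarith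
    exact_mod_cast this
  have hrN : r ≤ N := by
    have : (r : ℝ) < N := by linarith
    have h5 : r < N := by exact_mod_cast this
    exact h5.le
  have hd1 : 1 ≤ k' - k := by
    have : (0:ℝ) < ((k' - k : ℤ) : ℝ) := by push_cast; linarith
    have h5 : 0 < k' - k := by exact_mod_cast this
    omega
  have f1 := R.freeR (δ := δ) (k := k) (r := N) g3 g4 g5 g1
  have f2 := R.freeR (δ := δ) (k := k') (r := N) l3 l4 l5 g1
  have e1 : k + (k' - k) = k' := by ring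
  have key := h k (k' - k) r N hr1 hrN hd1 (ES (R.verts δ)) (RE_sub f1.flat)
    (by rw [e1]; exact RE_sub f2.flat)
  rw [e1] at key
  have i1 : Q (R.edges δ) (fun F => (R.path δ F ∩ Rect.UU x ε).Nonempty ∧
      (R.path δ F ∩ Rect.UU y ε).Nonempty) ≤
      Q (ES (R.verts δ)) (fun F => BAr k r N F ∧ BAr k' r N F) := by
    apply Q_mono
    rintro F hF ⟨h1, h2⟩
    exact ⟨WB_BAr f1 (by omega) hrN g3 hF (path_WB R hδ h16 g2 hF h1),
      WB_BAr f2 (by omega) hrN l3 hF (path_WB R hδ h16 g2 hF h2)⟩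
  refine i1.trans (key.trans ?_)
  have hN0 : (0:ℝ) < N := by exact_mod_cast (show (0:ℤ) < N by omega)
  have hr0 : (0:ℝ) ≤ r := by exact_mod_cast (show (0:ℤ) ≤ r by omega)
  set m : ℤ := min (k' - k) N with hm
  have hm0 : (0:ℝ) < m := by
    have : (0:ℤ) < m := lt_min (by omega) (by omega)
    exact_mod_cast this
  have e2 : th r * th r / (th m * th N) = ((r : ℝ) * r / (m * N)) ^ ((1:ℝ)/3) := by
    unfold th
    rw [Real.div_rpow (by positivity) (by positivity), Real.mul_rpow hr0 hr0,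
      Real.mul_rpow hm0.le hN0.le]
  rw [e2, mul_assoc, ← Real.mul_rpow (by norm_num) (by
    have : 0 < min (y - x) ρ := lt_min (by linarith) hρ
    positivity)]
  apply mul_le_mul_of_nonneg_left _ hC.le
  apply Real.rpow_le_rpow (by positivity) _ (by norm_num)
  set μ : ℝ := min (y - x) ρ with hμ
  have hμ0 : 0 < μ := lt_min (by linarith) hρ
  have hmm : μ / (4 * δ) ≤ m := by
    have h5 : (m : ℝ) = min ((k' - k : ℤ) : ℝ) (N : ℝ) := by rw [hm]; push_cast; rfl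
    rw [h5]
    apply le_min
    · have h6 : μ / (4 * δ) ≤ ((y - x) / δ) / 4 := by
        rw [div_div, mul_comm δ 4]
        exact div_le_div_of_nonneg_right (min_le_left _ _) (by positivity)
      push_cast
      linarith
    · have h6 : μ / (4 * δ) ≤ (ρ / δ) / 4 := by
        rw [div_div, mul_comm δ 4]
        exact div_le_div_of_nonneg_right (min_le_right _ _) (by positivity)
      linarith
  have hNN : ρ / (4 * δ) ≤ N := by
    have h6 : ρ / (4 * δ) = (ρ / δ) / 4 := by rw [div_div, mul_comm δ 4]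
    linarith
  have hrr : (r : ℝ) ≤ 4 * (ε / δ) := by linarith
  rw [div_le_iff₀ (by positivity)]
  calc (r : ℝ) * r ≤ (4 * (ε / δ)) * (4 * (ε / δ)) := by gcongr
    _ = 256 * (ε ^ 2 / (μ * ρ)) * ((μ / (4 * δ)) * (ρ / (4 * δ))) := by
        field_simp
        norm_num
    _ ≤ 256 * (ε ^ 2 / (μ * ρ)) * ((m : ℝ) * N) := by gcongr

end Pool.Agent.Run7.h885.BF
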