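import Pool.Agent.Run7.h885.BF.Defs
import Pool.Agent.Run7.h885.BF.Two
import Pool.Agent.Run7.h885.GF.UpC

/-!
Weak limits of the trace and the free side next to `b`: one-point and two-point bounds.
-/

set_option maxHeartbeats 1000000

namespace Pool.Agent.Run7.h885.BF

open H974 H973 H934E MeasureTheory TopologicalSpace Filter Topology Metric Set
open scoped ENNReal
open Pool.Agent.Run7.h885.GF Pool.Agent.Run7.h885.FS

/-- weak limits of the laws of the trace -/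
def IsT (R : Rect) (μ : ProbabilityMeasure (NonemptyCompacts ℂ)) : Prop :=
  ∃ (δ : ℕ → ℝ) (hδ : ∀ i, 0 < δ i), Tendsto δ atTop (𝓝 0) ∧
    Tendsto (fun i => R.law (hδ i)) atTop (𝓝 μ)

/-- the points of the side at distance at least `ρ` from its ends -/
def GQ (B ρ : ℝ) : Set ℂ := {z | z.im = 0 ∧ ρ ≤ z.re ∧ ρ ≤ B - z.re}

theorem exists_GQ {B H : ℝ} (hH : 0 < H) {Q : Set ℂ} (hQ : IsCompact Q) (hQG : Q ⊆ Gam B) :
    ∃ ρ : ℝ, 0 < ρ ∧ ρ ≤ H ∧ Q ⊆ GQ B ρ := by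
  rcases Q.eq_empty_or_nonempty with h0 | hne
  · exact ⟨H, hH, le_rfl, by rw [h0]; exact empty_subset _⟩
  · have hc : ContinuousOn (fun z : ℂ => min z.re (B - z.re)) Q := by fun_prop
    obtain ⟨z0, hz0, hmin⟩ := hQ.exists_isMinOn hne hc
    have h1 := hQG hz0
    refine ⟨min (min z0.re (B - z0.re)) H, lt_min (lt_min h1.2.1 (by linarith [h1.2.2])) hH,
      min_le_right _ _, ?_⟩
    intro z hz
    have h2 : min z0.re (B - z0.re) ≤ min z.re (B - z.re) := hmin hz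
    exact ⟨(hQG hz).1, (min_le_left _ _).trans (h2.trans (min_le_left _ _)),
      (min_le_left _ _).trans (h2.trans (min_le_right _ _))⟩

theorem Gam_sub (B H : ℝ) (hH : 0 < H) :
    Gam B ⊆ ⋃ n : ℕ, GQ B (min H (1 / ((n : ℝ) + 1))) := by
  intro z hz
  obtain ⟨n, hn⟩ := exists_nat_one_div_lt (lt_min hz.2.1 (sub_pos.mpr hz.2.2))
  refine mem_iUnion.mpr ⟨n, hz.1, ?_, ?_⟩
  · exact (min_le_right _ _).trans (hn.le.trans (min_le_left _ _))
  · exact (min_le_right _ _).trans (hn.le.trans (min_le_right _ _))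

theorem ball_UU {z : ℂ} (hz : z.im = 0) {r : ℝ} (hr : 0 < r) :
    closedBall z r ⊆ Rect.UU z.re (2 * r) := by
  intro w hw
  rw [mem_closedBall, Complex.dist_eq] at hw
  have a1 := Complex.abs_re_le_norm (w - z)
  have a2 := Complex.abs_im_le_norm (w - z)
  rw [Complex.sub_re] at a1
  rw [Complex.sub_im, hz, sub_zero] at a2
  exact ⟨by linarith, by linarith⟩

/-- one-point upper bound -/
theorem u1 : ∃ C : ℝ, 0 < C ∧ ∀ (R : Rect) (μ : ProbabilityMeasure (NonemptyCompacts ℂ)),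
    IsT R μ → ∀ ρ : ℝ, 0 < ρ → ρ ≤ R.H →
      U1 (μ : Measure (NonemptyCompacts ℂ)) (GQ R.B ρ) (1 / 3)
        (C * (2 / ρ) ^ ((1 : ℝ) / 3)) (ρ / 16) := by
  obtain ⟨C, hC, h⟩ := Rect.HU_le
  refine ⟨C, hC, ?_⟩
  rintro R μ ⟨δ, hδ, hlim, hμ⟩ ρ hρ hH z hz r hr hr0
  have h1 := h R hδ hlim hμ z.re ρ (2 * r) hρ hz.2.1 hz.2.2 hH (by positivity) (by linarith)
  have e : C * (2 * r / ρ) ^ ((1 : ℝ) / 3) = C * (2 / ρ) ^ ((1 : ℝ) / 3) * r ^ ((1 : ℝ) / 3) := by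
    rw [mul_assoc, ← Real.mul_rpow (by positivity) hr.le]
    congr 2; ring
  rw [e] at h1
  refine (measure_mono ?_).trans h1
  rintro K ⟨w, hw1, hw2⟩
  exact ⟨w, hw1, ball_UU hz.1 hr hw2⟩

/-- two-point upper bound for two boxes -/
theorem two_lim : ∃ C : ℝ, 0 < C ∧ ∀ (R : Rect) (μ : ProbabilityMeasure (NonemptyCompacts ℂ)),
    IsT R μ → ∀ x y ρ ε : ℝ, 0 < ρ → x < y → ρ ≤ x → ρ ≤ R.B - y → ρ ≤ R.H → 0 < ε → 8 * ε ≤ ρ →
    (μ : Measure (NonemptyCompacts ℂ)) (Rect.HU x ε ∩ Rect.HU y ε) ≤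
      ENNReal.ofReal (C * (ε ^ 2 / (min (y - x) ρ * ρ)) ^ ((1 : ℝ) / 3)) := by
  obtain ⟨C, hC, h⟩ := two_lat
  refine ⟨C, hC, ?_⟩
  rintro R μ ⟨δ, hδ, hlim, hμ⟩ x y ρ ε hρ hxy hx hy hH hε h8
  refine R.open_le hδ hμ ((Rect.isOpen_HU x ε).inter (Rect.isOpen_HU y ε)) ?_
  have hpos : 0 < min (ε / 16) (min R.A ((y - x) / 4)) :=
    lt_min (by positivity) (lt_min R.hA (by linarith))
  filter_upwards [hlim.eventually_lt_const hpos] with i hi
  simp only [lt_min_iff] at hi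
  exact h R x y ρ ε (δ i) hρ hxy hx hy hH hε h8 (hδ i) (by linarith [hi.1]) hi.2.1
    (by linarith [hi.2.2])

theorem hd_UU {z : ℂ} (hz : z.im = 0) {r : ℝ} (hr : 0 < r) {K : NonemptyCompacts ℂ}
    (h : hd z K ≤ r) : K ∈ Rect.HU z.re (2 * r) := by
  obtain ⟨k, hk, hk2⟩ := exists_dist_le h
  refine ⟨k, hk, ball_UU hz hr ?_⟩
  rw [mem_closedBall, dist_comm]
  exact hk2

/-- two-point upper bound -/
theorem h2 (R : Rect) {ρ : ℝ} (hρ : 0 < ρ) (hH : ρ ≤ R.H) :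
    ∃ C : ℝ, 0 < C ∧ ∀ μ : ProbabilityMeasure (NonemptyCompacts ℂ), IsT R μ →
      H2 (μ : Measure (NonemptyCompacts ℂ)) (GQ R.B ρ) (1 / 3) C (ρ / 16) := by
  obtain ⟨C0, hC0, h⟩ := two_lim
  set L : ℝ := max R.B ρ with hL
  have hLpos : 0 < L := lt_max_of_lt_right hρ
  refine ⟨C0 * (4 * L / ρ ^ 2) ^ ((1 : ℝ) / 3), by positivity, ?_⟩
  intro μ hμ z hz w hw r hr hr0
  have hCr : 0 < C0 * (4 * L / ρ ^ 2) ^ ((1 : ℝ) / 3) * r ^ (2 * ((1 : ℝ) / 3)) := by positivity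
  rcases eq_or_ne z w with rfl | hzw
  · have h1 : (edist z z) ^ (-((1 : ℝ) / 3)) = ⊤ := by
      rw [edist_self, ENNReal.zero_rpow_of_neg (by norm_num)]
    rw [h1, ENNReal.mul_top (ENNReal.ofReal_pos.mpr hCr).ne']
    exact le_top
  have hDpos : 0 < dist z w := dist_pos.mpr hzw
  have hdist : dist z w = |z.re - w.re| := by
    rw [Complex.dist_eq]
    have : z - w = ((z.re - w.re : ℝ) : ℂ) := by
      apply Complex.ext <;> simp [hz.1, hw.1]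
    rw [this, Complex.norm_real, Real.norm_eq_abs]
  have hDL : dist z w ≤ L := by
    rw [hdist]
    refine le_trans ?_ (le_max_left _ _)
    rw [abs_le]
    constructor <;> linarith [hz.2.1, hz.2.2, hw.2.1, hw.2.2]
  have hρL : ρ ≤ L := le_max_right _ _
  have h1 : (μ : Measure (NonemptyCompacts ℂ)) (Rect.HU z.re (2 * r) ∩ Rect.HU w.re (2 * r)) ≤
      ENNReal.ofReal (C0 * ((2 * r) ^ 2 / (min (dist z w) ρ * ρ)) ^ ((1 : ℝ) / 3)) := by
    rcases lt_trichotomy z.re w.re with h3 | h3 | h3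
    · have e : dist z w = w.re - z.re := by
        rw [hdist, abs_sub_comm, abs_of_pos (by linarith)]
      rw [e]
      exact h R μ hμ z.re w.re ρ (2 * r) hρ h3 hz.2.1 hw.2.2 hH (by positivity) (by linarith)
    · exfalso
      rw [hdist, h3, sub_self, abs_zero] at hDpos
      exact lt_irrefl _ hDpos
    · have e : dist z w = z.re - w.re := by
        rw [hdist, abs_of_pos (by linarith)]
      rw [e, inter_comm]
      exact h R μ hμ w.re z.re ρ (2 * r) hρ h3 hw.2.1 hz.2.2 hH (by positivity) (by linarith)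
  have hsub : {K : NonemptyCompacts ℂ | hd z K ≤ r ∧ hd w K ≤ r} ⊆
      Rect.HU z.re (2 * r) ∩ Rect.HU w.re (2 * r) :=
    fun K hK => ⟨hd_UU hz.1 hr hK.1, hd_UU hw.1 hr hK.2⟩
  refine (measure_mono hsub).trans (h1.trans ?_)
  rw [edist_dist, ENNReal.ofReal_rpow_of_pos hDpos, ← ENNReal.ofReal_mul hCr.le]
  apply ENNReal.ofReal_le_ofReal
  have hmin : dist z w * ρ / L ≤ min (dist z w) ρ := by
    apply le_min
    · rw [div_le_iff₀ hLpos]; exact mul_le_mul_of_nonneg_left hρL hDpos.le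
    · rw [div_le_iff₀ hLpos, mul_comm]; exact mul_le_mul_of_nonneg_left hDL hρ.le
  have hm0 : 0 < dist z w * ρ / L := by positivity
  have hm1 : 0 < min (dist z w) ρ := lt_min hDpos hρ
  have h4 : (2 * r) ^ 2 / (min (dist z w) ρ * ρ) ≤
      (4 * L / ρ ^ 2) * (r ^ (2 : ℝ) * (dist z w)⁻¹) := by
    calc (2 * r) ^ 2 / (min (dist z w) ρ * ρ)
        ≤ (2 * r) ^ 2 / ((dist z w * ρ / L) * ρ) := by gcongr
      _ = _ := by
        rw [Real.rpow_two]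
        field_simp
        ring
  have h5 : ((2 * r) ^ 2 / (min (dist z w) ρ * ρ)) ^ ((1 : ℝ) / 3) ≤
      (4 * L / ρ ^ 2) ^ ((1 : ℝ) / 3) * (r ^ (2 * ((1 : ℝ) / 3)) *
        (dist z w) ^ (-((1 : ℝ) / 3))) := by
    calc ((2 * r) ^ 2 / (min (dist z w) ρ * ρ)) ^ ((1 : ℝ) / 3)
        ≤ ((4 * L / ρ ^ 2) * (r ^ (2 : ℝ) * (dist z w)⁻¹)) ^ ((1 : ℝ) / 3) :=
          Real.rpow_le_rpow (by positivity) h4 (by norm_num)
      _ = _ := by
        rw [Real.mul_rpow (by positivity) (by positivity),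
          Real.mul_rpow (by positivity) (by positivity), ← Real.rpow_mul hr.le,
          Real.inv_rpow hDpos.le, ← Real.rpow_neg hDpos.le]
  calc C0 * ((2 * r) ^ 2 / (min (dist z w) ρ * ρ)) ^ ((1 : ℝ) / 3)
      ≤ C0 * ((4 * L / ρ ^ 2) ^ ((1 : ℝ) / 3) * (r ^ (2 * ((1 : ℝ) / 3)) *
        (dist z w) ^ (-((1 : ℝ) / 3)))) := by gcongr
    _ = _ := by ring

/-- one-point lower bound on the lattice -/
theorem one_lat (R : Rect) {ρ : ℝ} (hρ : 0 < ρ) (hH : ρ ≤ R.H) :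
    ∃ a : ℝ, 0 < a ∧ ∀ (z : ℂ) (r δ : ℝ) (hδ : 0 < δ), z ∈ GQ R.B ρ → 0 < r → r ≤ ρ →
      32 * δ ≤ r → δ < R.A →
      a * r ^ ((1 : ℝ) / 3) ≤ Q (R.edges δ) (fun F => R.trace hδ F ∈
        {K : NonemptyCompacts ℂ | ((K : Set ℂ) ∩ closedBall z r).Nonempty}) := by
  obtain ⟨c, hc, h⟩ := interval_ge ⌈16 * (R.A + R.B) / ρ⌉₊
  refine ⟨c * (1 / (2 * ρ)) ^ ((1 : ℝ) / 3), by positivity, ?_⟩
  intro z r δ hδ hz hr hrρ h32 hA
  obtain ⟨hz0, hz1, hz2⟩ := hz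
  set x := z.re with hx
  set k : ℤ := ⌊x / δ⌋ with hk
  set n : ℤ := ⌊ρ / (8 * δ)⌋ with hn
  set s : ℤ := ⌊r / (8 * δ)⌋ with hs
  have k1 : (k : ℝ) ≤ x / δ := Int.floor_le _
  have k2 : x / δ < k + 1 := Int.lt_floor_add_one _
  have n1 : (n : ℝ) ≤ ρ / (8 * δ) := Int.floor_le _
  have n2 : ρ / (8 * δ) < n + 1 := Int.lt_floor_add_one _
  have s1 : (s : ℝ) ≤ r / (8 * δ) := Int.floor_le _
  have s2 : r / (8 * δ) < s + 1 := Int.lt_floor_add_one _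
  have e1 : ρ / (8 * δ) = (ρ / δ) / 8 := by rw [div_div, mul_comm δ 8]
  have e2 : r / (8 * δ) = (r / δ) / 8 := by rw [div_div, mul_comm δ 8]
  rw [e1] at n1 n2
  rw [e2] at s1 s2
  have q1 : 32 ≤ r / δ := by rw [le_div_iff₀ hδ]; exact h32
  have q2 : r / δ ≤ ρ / δ := div_le_div_of_nonneg_right hrρ hδ.le
  have q5 : ρ / δ ≤ x / δ := div_le_div_of_nonneg_right hz1 hδ.le
  have q6 : ρ / δ ≤ R.B / δ - x / δ := by
    rw [← sub_div]; exact div_le_div_of_nonneg_right hz2 hδ.le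
  have q7 : ρ / δ ≤ R.H / δ := div_le_div_of_nonneg_right hH hδ.le
  have B1 : R.B / δ ≤ (⌈R.B / δ⌉ : ℝ) := Int.le_ceil _
  have H1 : R.H / δ ≤ (⌈R.H / δ⌉ : ℝ) := Int.le_ceil _
  have hs1 : 1 ≤ s := by
    have : (0:ℝ) < s := by linarith
    exact_mod_cast this
  have hsn : s ≤ n := Int.floor_le_floor (by
    rw [e1, e2]; linarith)
  have g1 : R.x0 δ < 0 := by
    unfold Rect.x0
    rw [Int.floor_neg]
    have : 1 < ⌈R.A / δ⌉ := by
      rw [Int.lt_ceil]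
      push_cast
      rw [lt_div_iff₀ hδ]
      linarith
    omega
  have g2 : 3 * n ≤ k := by
    have : ((3 * n : ℤ) : ℝ) ≤ ((k : ℤ) : ℝ) := by push_cast; linarith
    exact_mod_cast this
  have g3 : k + 3 * n ≤ R.x1 δ := by
    unfold Rect.x1
    have : ((k + 3 * n : ℤ) : ℝ) ≤ ((⌈R.B / δ⌉ - 1 : ℤ) : ℝ) := by push_cast; linarith
    exact_mod_cast this
  have g4 : 3 * n < R.y1 δ := by
    unfold Rect.y1
    have : ((3 * n : ℤ) : ℝ) < ((⌈R.H / δ⌉ - 2 : ℤ) : ℝ) := by push_cast; linarith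
    exact_mod_cast this
  have g5 : k - R.x0 δ ≤ (⌈16 * (R.A + R.B) / ρ⌉₊ : ℕ) * n := by
    have f1 : -(R.A / δ) ≤ (R.x0 δ : ℝ) := by
      unfold Rect.x0
      push_cast
      linarith [Int.lt_floor_add_one (-(R.A / δ))]
    have f2 : ((k - R.x0 δ : ℤ) : ℝ) ≤ (R.A + R.B) / δ := by
      push_cast
      rw [add_div]
      have : 0 ≤ ρ / δ := by positivity
      linarith
    have f3 : ρ / δ / 16 ≤ n := by linarith
    have f4 : 16 * (R.A + R.B) / ρ ≤ (⌈16 * (R.A + R.B) / ρ⌉₊ : ℝ) := Nat.le_ceil _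
    have hAB : 0 < R.A + R.B := add_pos R.hA R.hB
    have f5 : (R.A + R.B) / δ ≤ (⌈16 * (R.A + R.B) / ρ⌉₊ : ℝ) * n := by
      calc (R.A + R.B) / δ = (16 * (R.A + R.B) / ρ) * (ρ / δ / 16) := by field_simp
        _ ≤ (⌈16 * (R.A + R.B) / ρ⌉₊ : ℝ) * n := by gcongr
    have f6 := f2.trans f5
    exact_mod_cast f6
  have key := h R δ k n s hs1 hsn g1 g2 g3 g4 g5
  have hn0 : (0:ℝ) < n := by linarith
  have hs0 : (0:ℝ) < s := by linarith
  have e3 : c * (1 / (2 * ρ)) ^ ((1 : ℝ) / 3) * r ^ ((1 : ℝ) / 3) ≤ c * (th s / th n) := by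
    rw [mul_assoc, ← Real.mul_rpow (by positivity) hr.le]
    apply mul_le_mul_of_nonneg_left _ hc.le
    unfold th
    rw [← Real.div_rpow hs0.le hn0.le]
    apply Real.rpow_le_rpow (by positivity) _ (by norm_num)
    rw [le_div_iff₀ hn0]
    calc 1 / (2 * ρ) * r * n ≤ 1 / (2 * ρ) * r * (ρ / δ / 8) := by gcongr
      _ = r / δ / 16 := by field_simp; norm_num
      _ ≤ s := by linarith
  refine e3.trans (key.trans ?_)
  apply Q_mono
  rintro F hF ⟨l, hl1, hl2, hW⟩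
  have hlx : l ≤ R.x1 δ := by omega
  have hmem := R.mem_path (δ := δ) (F := F) (by omega) hlx hW
  refine ⟨_, hmem, ?_⟩
  rw [mem_closedBall, Complex.dist_eq]
  refine (Complex.norm_le_abs_re_add_abs_im _).trans ?_
  simp only [Complex.sub_re, Complex.sub_im, hz0, sub_zero]
  have a3 : (l : ℝ) ≤ ((k - s : ℤ) : ℝ) := by exact_mod_cast hl2
  have a4 : ((k - 3 * s : ℤ) : ℝ) ≤ (l : ℝ) := by exact_mod_cast hl1
  push_cast at a3 a4
  have e7 : δ * (l : ℝ) - z.re = δ * ((l : ℝ) - x / δ) := by rw [← hx]; field_simp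
  rw [e7, abs_mul, abs_of_pos hδ, abs_of_pos (show 0 < δ / 2 by positivity)]
  have e8 : |(l : ℝ) - x / δ| ≤ r / δ / 2 := by
    rw [abs_le]; constructor <;> linarith
  calc δ * |(l : ℝ) - x / δ| + δ / 2 ≤ δ * (r / δ / 2) + δ / 2 := by gcongr
    _ = r / 2 + δ / 2 := by field_simp
    _ ≤ r := by linarith

/-- one-point lower bound -/
theorem h1 (R : Rect) {ρ : ℝ} (hρ : 0 < ρ) (hH : ρ ≤ R.H) :
    ∃ a : ℝ, 0 < a ∧ ∀ μ : ProbabilityMeasure (NonemptyCompacts ℂ), IsT R μ →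
      H1 (μ : Measure (NonemptyCompacts ℂ)) (GQ R.B ρ) (1 / 3) a ρ := by
  obtain ⟨a, ha, h⟩ := one_lat R hρ hH
  refine ⟨a, ha, ?_⟩
  rintro μ ⟨δ, hδ, hlim, hμ⟩ z hz r hr hr0
  have hcl : IsClosed {K : NonemptyCompacts ℂ | ((K : Set ℂ) ∩ closedBall z r).Nonempty} :=
    NonemptyCompacts.isClosed_inter_nonempty_of_isClosed isClosed_closedBall
  have h3 : ENNReal.ofReal (a * r ^ ((1 : ℝ) / 3)) ≤ (μ : Measure (NonemptyCompacts ℂ))
      {K : NonemptyCompacts ℂ | ((K : Set ℂ) ∩ closedBall z r).Nonempty} := by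
    refine R.closed_ge hδ hμ hcl ?_
    filter_upwards [hlim.eventually_lt_const (show (0 : ℝ) < min (r / 32) R.A from
      lt_min (by positivity) R.hA)] with i hi
    rw [lt_min_iff] at hi
    exact h z r (δ i) (hδ i) hz hr hr0.le (by linarith [hi.1]) hi.2
  refine h3.trans (measure_mono ?_)
  rintro K ⟨w, hw1, hw2⟩
  rw [mem_closedBall, dist_comm] at hw2
  exact (infDist_le_dist_of_mem hw1).trans hw2

/-- all the limits -/
def MT (R : Rect) : Set (Measure (NonemptyCompacts ℂ)) :=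
  {m | ∃ μ : ProbabilityMeasure (NonemptyCompacts ℂ), IsT R μ ∧ m = μ}

theorem MT_prob (R : Rect) : ∀ m ∈ MT R, IsProbabilityMeasure m := by
  rintro m ⟨μ, -, rfl⟩
  infer_instance

theorem hl (R : Rect) : HL (MT R) (Gam R.B) (1 / 3) := by
  intro Q hQ hQG
  obtain ⟨ρ, hρ, hH, hQ2⟩ := exists_GQ R.hH hQ hQG
  obtain ⟨a, ha, h1'⟩ := h1 R hρ hH
  obtain ⟨C, hC, h2'⟩ := h2 R hρ hH
  refine ⟨⟨a, ρ, ha, hρ, ?_⟩, C, ρ / 16, hC, by positivity, ?_⟩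
  · rintro m ⟨μ, hμ, rfl⟩
    exact GF.H1.sub (h1' μ hμ) hQ2
  · rintro m ⟨μ, hμ, rfl⟩
    exact GF.H2.sub (h2' μ hμ) hQ2

theorem codim_side (R : Rect) {μ : ProbabilityMeasure (NonemptyCompacts ℂ)} (hμ : IsT R μ) :
    Codim id (Gam R.B) (ENNReal.ofReal (1 / 3)) (μ : Measure (NonemptyCompacts ℂ)) := by
  obtain ⟨C, hC, hU⟩ := u1
  refine codimC (M := MT R) (Gam_sub R.B R.H R.hH) (by norm_num) (hl R) (MT_prob R) ?_
    ⟨μ, hμ, rfl⟩
  rintro m ⟨ν, hν, rfl⟩ n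
  have hρ : 0 < min R.H (1 / ((n : ℝ) + 1)) := lt_min R.hH (by positivity)
  exact ⟨_, _, by positivity, by positivity, hU R ν hν _ hρ (min_le_left _ _)⟩

end Pool.Agent.Run7.h885.BF
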